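import Mathlib
import Pool.Agent.N734.MZ.Few

/-!
# MP_4d52ff_nt: relations between multiple zeta values split into relations of one weight, for almost all arguments

A pattern in `k` variables is a nonempty list of letters `b + u_1 s_1 + ... + u_k s_k`; at a tuple `s` of natural numbers
it gives an index. The first letters may be constant, of arbitrary weight, such as in `ζ(2, 2, s_1, 3, s_1 + s_2)`, and
all letters may be constant. The fronts of the pattern are the nonempty initial segments of the list of its constant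
first letters. The tuple `s` is bad (for `D` and `H`) if there is a polynomial relation of degree at most `D` with integer
coefficients at most `H` between the multiple zeta values of the patterns at `s` such that its part of some weight is not
a relation; this is a nontrivial relation `z_0 + ... + z_p = 0` with `z_j` in the space `Z_j`.

Theorem. Let `w_1, ..., w_r` be admissible patterns in `k` variables, and let `D`, `κ` be natural numbers.

(1) If all constant first letters of the patterns are equal and even, in each pattern, such as in `ζ(2, 2, 2, s_1, 3)` and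
`ζ(4, 4)`, there is `K` such that for all `C` and all large `N` at most `K N ^ (k - 1)` of the tuples
`s ∈ [N, κ N] ^ k` are bad, for `D` and `H = C ^ N`. This is unconditional.

(2) For arbitrary constant first letters the same holds if all polynomial relations between the multiple zeta values of
the (finitely many) fronts split into relations of one weight.

(3) Conversely the condition on the fronts in (2) is necessary; the following are equivalent: (a) the sum `Z_0 + ... + Z_p` is direct for all `p` (Q1); (b) for all admissible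
patterns `w_1, ..., w_r` in `k` variables, `D`, `κ` there is `K` such that for all `C` and all large `N` at most
`K N ^ (k - 1)` tuples are bad; (c) for all patterns in one variable with exactly one nonconstant letter `s + b`, and for
each `B`, there are arbitrarily large odd `s` for which all LINEAR relations with integer coefficients at most `B` between
the multiple zeta values of the patterns at `s` split into relations of one weight.

The starting files on this page need a first letter which is not constant (`ShortSums`), or one variable. The proof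
applies the unused theorem `gen2` of `Pool.Agent.X90.DC` (starting library) to the family `ζ(u) T ^ |u|` of polynomials,
which has the stuffle product. For (1) the relations between the fronts are found with Newton's identities in the stuffle
algebra and the transcendence of `π`. For (c) ⇒ (a) a relation is linearised with the stuffle product and multiplied by
`ζ(s)`.
-/

set_option autoImplicit false

namespace Pool.Agent.Results.MP_4d52ff_nt.AlmostAllTuples

/-- `trunc [s_1, ..., s_r] m` is the sum of `∏ n_i ^ (-s_i)` over `m > n_1 > ... > n_r ≥ 1` -/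
noncomputable def trunc : List ℕ → ℕ → ℝ
  | [], _ => 1
  | s :: l, m => ∑ j ∈ Finset.Ico 1 m, trunc l j / (j : ℝ) ^ s

/-- the multiple zeta value `ζ(s_1, ..., s_r)`, `s_1` belongs to the largest variable -/
noncomputable def mzv : List ℕ → ℝ
  | [] => 1
  | s :: l => ∑' m : ℕ, trunc l (m + 1) / ((m + 1 : ℕ) : ℝ) ^ s

/-- admissible indices: `(s_1, ..., s_r)`, `r ≥ 1`, with `s_1 ≥ 2` and all `s_i ≥ 1` -/
def Admissible : List ℕ → Prop
  | [] => False
  | s :: l => 2 ≤ s ∧ ∀ t ∈ l, 1 ≤ t

/-- the letter `(b, u)` stands for `b + ∑ u_j s_j` -/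
abbrev Letter (k : ℕ) : Type := ℕ × (Fin k → ℕ)

/-- the index given by a pattern at the tuple `s` -/
def index {k : ℕ} (s : Fin k → ℕ) (w : List (Letter k)) : List ℕ :=
  w.map fun u => u.1 + ∑ j, u.2 j * s j

/-- nonempty patterns whose constant letters are positive, and whose first letter is at least two if it is constant -/
def AdmissiblePattern {k : ℕ} (w : List (Letter k)) : Prop :=
  w ≠ [] ∧ (∀ u ∈ w.head?, u.2 ≠ 0 ∨ 2 ≤ u.1) ∧ ∀ u ∈ w, u.2 ≠ 0 ∨ 1 ≤ u.1

open Classical in
/-- the constant letters in front of the first letter which is not constant -/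
def constantPart {k : ℕ} : List (Letter k) → List ℕ
  | [] => []
  | u :: w => if u.2 = 0 then u.1 :: constantPart w else []

/-- the fronts of the patterns: the nonempty initial segments of the constant parts -/
def fronts {k r : ℕ} (w : Fin r → List (Letter k)) : Set (List ℕ) :=
  {q | q ≠ [] ∧ ∃ i, q <+: constantPart (w i)}

/-- the constant letters in front are equal and even: `2a, ..., 2a` (none is allowed) -/
def EvenFront {k : ℕ} (w : List (Letter k)) : Prop :=
  ∃ n a : ℕ, constantPart w = List.replicate n (2 * a)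

/-- exactly one letter is not constant, and this letter is `s + b` -/
def OneLarge (w : List (Letter 1)) : Prop :=
  ∃ (p : List ℕ) (b : ℕ) (q : List ℕ), w = p.map (fun a => (a, 0)) ++ (b, 1) :: q.map (fun a => (a, 0))

/-- the `ℚ`-span of the multiple zeta values of weight `j`; `ζ() = 1` has weight `0` -/
noncomputable def Z (j : ℕ) : Submodule ℚ ℝ :=
  Submodule.span ℚ {x : ℝ | ∃ u : List ℕ, (u = [] ∨ Admissible u) ∧ u.sum = j ∧ x = mzv u}

/-- the sum `Z_0 + ... + Z_p` is direct -/
def IsDirect (p : ℕ) : Prop :=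
  ∀ z : ℕ → ℝ, (∀ j ≤ p, z j ∈ Z j) → ∑ j ∈ Finset.range (p + 1), z j = 0 → ∀ j ≤ p, z j = 0

/-- the value at the multiple zeta values of the indices `g i` of the part of weight `p` of the polynomial `P`, where the
variable `X_i` has the weight of the index `g i` -/
noncomputable def part {σ R : Type} [CommRing R] [Algebra R ℝ] (g : σ → List ℕ) (p : ℕ)
    (P : MvPolynomial σ R) : ℝ :=
  MvPolynomial.aeval (fun i => mzv (g i)) (MvPolynomial.weightedHomogeneousComponent (fun i => (g i).sum) p P)

/-- every polynomial relation with rational coefficients between the multiple zeta values of the admissible indices in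
`S` splits into relations of one weight -/
def Splits (S : Set (List ℕ)) : Prop :=
  ∀ f : MvPolynomial {u : List ℕ // Admissible u ∧ u ∈ S} ℚ,
    MvPolynomial.aeval (fun u => mzv u.1) f = 0 → ∀ p, part (fun u => u.1) p f = 0

/-- a polynomial relation of degree at most `D` with integer coefficients of absolute value at most `H` between the
multiple zeta values of the patterns at `s` does not split into relations of one weight -/
def Bad {k r : ℕ} (w : Fin r → List (Letter k)) (D : ℕ) (H : ℝ) (s : Fin k → ℕ) : Prop :=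
  ∃ P : MvPolynomial (Fin r) ℤ, P.totalDegree ≤ D ∧ (∀ m, |((P.coeff m : ℤ) : ℝ)| ≤ H) ∧
    MvPolynomial.aeval (fun i => mzv (index s (w i))) P = 0 ∧ ∃ p, part (fun i => index s (w i)) p P ≠ 0

/-- there is `K` such that for all `C` and all sufficiently large `N` at most `K N ^ (k - 1)` of the tuples
`s ∈ [N, κ N] ^ k` have the property `E (C ^ N)` -/
def Few {k : ℕ} (κ : ℕ) (E : ℝ → (Fin k → ℕ) → Prop) : Prop :=
  ∃ K : ℕ, ∀ C : ℝ, ∃ N₀ : ℕ, ∀ N : ℕ, N₀ ≤ N →
    {s : Fin k → ℕ | (∀ j, N ≤ s j ∧ s j ≤ κ * N) ∧ E (C ^ N) s}.ncard ≤ K * N ^ (k - 1)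

/-- statement (b) -/
def AlmostAll : Prop :=
  ∀ (k r : ℕ) (w : Fin r → List (Letter k)), (∀ i, AdmissiblePattern (w i)) → ∀ D κ : ℕ,
    Few κ fun H s => Bad w D H s

/-- statement (c) -/
def OneLargeArgument : Prop :=
  ∀ (r : ℕ) (w : Fin r → List (Letter 1)), (∀ i, AdmissiblePattern (w i) ∧ OneLarge (w i)) → ∀ B s₁ : ℕ,
    ∃ s, s₁ ≤ s ∧ Odd s ∧ ∀ a : Fin r → ℤ, (∀ i, |a i| ≤ B) →
      ∑ i, (a i : ℝ) * mzv (index (fun _ => s) (w i)) = 0 → ∀ p,
      ∑ i with (index (fun _ => s) (w i)).sum = p, (a i : ℝ) * mzv (index (fun _ => s) (w i)) = 0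

open Pool.Agent.X90.DC (fpx)
open Pool.Agent.X90.DB (Ad ix ex)
open Pool.Agent.N734.MZ (St Zg Tr)

theorem trunc_eq : ∀ l m, trunc l m = Pool.Agent.Y760.ZG.hr l m := by
  intro l
  induction l with
  | nil => intro m; rw [trunc, Pool.Agent.Y760.ZG.hr]
  | cons s l ih =>
    intro m
    rw [trunc, Pool.Agent.Y760.ZG.hr]
    exact Finset.sum_congr rfl fun j _ => by rw [ih]

theorem mzv_eq : ∀ l, mzv l = Pool.Agent.Y760.ZG.mz l := by
  intro l
  cases l with
  | nil => rw [mzv, Pool.Agent.Y760.ZG.mz]
  | cons s l =>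
    rw [mzv, Pool.Agent.Y760.ZG.mz]
    exact tsum_congr fun k => by rw [trunc_eq]

theorem mzv_fun : mzv = Pool.Agent.Y760.ZG.mz := funext mzv_eq

theorem adm_iff : ∀ u, Admissible u ↔ Ad u := by
  intro u
  cases u with
  | nil => exact Iff.rfl
  | cons a l => exact Iff.rfl

theorem constantPart_eq {k : ℕ} : ∀ w : List (Letter k), constantPart w = fpx w := by
  intro w
  induction w with
  | nil => rw [constantPart, fpx]
  | cons u w ih =>
    rw [constantPart, fpx, ih]

/-- the value at the graded family -/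
noncomputable def gval {σ R : Type} [CommRing R] [Algebra R ℝ] (g : σ → List ℕ) (P : MvPolynomial σ R) :
    Polynomial ℝ :=
  MvPolynomial.aeval (fun i => Zg (g i)) P

theorem coeff_gval {σ R : Type} [CommRing R] [Algebra R ℝ] (g : σ → List ℕ) (P : MvPolynomial σ R) (p : ℕ) :
    (gval g P).coeff p = part g p P := by
  rw [part, mzv_fun]
  exact Pool.Agent.N734.MZ.coeff_graded (fun i => (g i).sum) (fun i => Pool.Agent.Y760.ZG.mz (g i)) P p

theorem gval_eq_zero {σ R : Type} [CommRing R] [Algebra R ℝ] (g : σ → List ℕ) (P : MvPolynomial σ R) :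
    gval g P = 0 ↔ ∀ p, part g p P = 0 := by
  constructor
  · intro h p
    rw [← coeff_gval, h, Polynomial.coeff_zero]
  · intro h
    ext p
    rw [coeff_gval, h, Polynomial.coeff_zero]

theorem splits_iff (S : Set (List ℕ)) : Splits S ↔ Tr S Zg := by
  have hA : ∀ u : List ℕ, (Admissible u ∧ u ∈ S) ↔ (Ad u ∧ u ∈ S) := fun u => by rw [adm_iff]
  let α : {u : List ℕ // Admissible u ∧ u ∈ S} → {u : List ℕ // Ad u ∧ u ∈ S} := fun u => ⟨u.1, (hA u.1).1 u.2⟩
  let β : {u : List ℕ // Ad u ∧ u ∈ S} → {u : List ℕ // Admissible u ∧ u ∈ S} := fun u => ⟨u.1, (hA u.1).2 u.2⟩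
  constructor
  · intro h f hf
    have h1 := h (MvPolynomial.rename β f) (by
      rw [MvPolynomial.aeval_rename, mzv_fun]
      exact hf)
    rw [← gval_eq_zero, gval, MvPolynomial.aeval_rename] at h1
    exact h1
  · intro h f hf
    rw [← gval_eq_zero, gval]
    have h1 := h (MvPolynomial.rename α f) (by
      rw [MvPolynomial.aeval_rename, ← mzv_fun]
      exact hf)
    rw [MvPolynomial.aeval_rename] at h1
    exact h1

/-- part (2) -/
theorem part2 {k r : ℕ} (w : Fin r → List (Letter k)) (hw : ∀ i, AdmissiblePattern (w i))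
    (hS : Splits (fronts w)) (D κ : ℕ) : Few κ fun H s => Bad w D H s := by
  classical
  obtain ⟨K, hK⟩ := Pool.Agent.N734.MZ.few_lib w (fun i => (hw i).2) (fun i => (hw i).1) (fronts w)
    (fun i q hq hne => ⟨hne, i, by rw [constantPart_eq]; exact hq⟩) D κ
  refine ⟨K, fun C => ?_⟩
  obtain ⟨N₀, hN₀⟩ := hK C
  refine ⟨N₀, fun N hN => ?_⟩
  have hfin : {s : Fin k → ℕ | (∀ j, N ≤ s j ∧ s j ≤ κ * N) ∧ Bad w D (C ^ N) s}.Finite := by
    refine (Set.Finite.pi' (t := fun _ : Fin k => Set.Icc N (κ * N)) fun _ => Set.finite_Icc _ _).subset ?_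
    intro s hs j
    exact ⟨(hs.1 j).1, (hs.1 j).2⟩
  show {s : Fin k → ℕ | (∀ j, N ≤ s j ∧ s j ≤ κ * N) ∧ Bad w D (C ^ N) s}.ncard ≤ _
  rw [Set.ncard_eq_toFinset_card _ hfin]
  refine hN₀ N hN _ fun s hs => ?_
  rw [Set.Finite.mem_toFinset] at hs
  obtain ⟨h1, P, h2, h3, h4, p, h5⟩ := hs
  refine ⟨h1, P, h2, h3, ?_, Polynomial ℝ, inferInstance, inferInstance, Zg, Pool.Agent.N734.MZ.st_Zg,
    (splits_iff _).1 hS, fun h => h5 ?_⟩
  · rw [← mzv_fun]
    exact h4
  · exact (gval_eq_zero (fun i => index s (w i)) P).1 h p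

/-- the fronts of a pattern with an even front -/
theorem fronts_even {k r : ℕ} (w : Fin r → List (Letter k)) (hw : ∀ i, EvenFront (w i))
    (u : {u : List ℕ // Ad u ∧ u ∈ fronts w}) :
    ∃ n a, 1 ≤ n ∧ 1 ≤ a ∧ u.1 = List.replicate n (2 * a) := by
  obtain ⟨u, hu, hne, i, hi⟩ := u
  obtain ⟨n, a, hc⟩ := hw i
  rw [hc, List.prefix_replicate_iff] at hi
  refine ⟨u.length, a, ?_, ?_, hi.2⟩
  · exact List.length_pos_iff.2 hne
  · by_contra ha
    have ha0 : a = 0 := by omega
    cases u with
    | nil => exact hne rfl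
    | cons b l =>
      have h1 : 2 ≤ b := hu.1
      have h2 := hi.2
      rw [List.length_cons, List.replicate_succ, List.cons.injEq] at h2
      omega

/-- the relations between the values at `2a, ..., 2a` split -/
theorem even_splits {k r : ℕ} (w : Fin r → List (Letter k)) (hw : ∀ i, EvenFront (w i)) :
    Splits (fronts w) := by
  rw [splits_iff]
  intro f hf
  have h1 : ∀ u : {u : List ℕ // Ad u ∧ u ∈ fronts w}, ∃ q : ℚ,
      Pool.Agent.Y760.ZG.mz u.1 = (q : ℝ) * Real.pi ^ u.1.sum := by
    intro u
    obtain ⟨n, a, hn, ha, hu⟩ := fronts_even w hw u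
    obtain ⟨q, hq⟩ := Pool.Agent.N734.MZ.mz_rep a n ha hn
    refine ⟨q, ?_⟩
    rw [hu, hq, List.sum_replicate, smul_eq_mul]
  choose q hq using h1
  set φ : MvPolynomial {u : List ℕ // Ad u ∧ u ∈ fronts w} ℚ →ₐ[ℚ] Polynomial ℚ :=
    MvPolynomial.aeval fun u => Polynomial.C (q u) * Polynomial.X ^ u.1.sum with hφ
  have h3 : Polynomial.aeval Real.pi (φ f) = 0 := by
    rw [← hf, hφ, ← AlgHom.comp_apply]
    congr 1
    refine MvPolynomial.algHom_ext fun i => ?_
    rw [AlgHom.comp_apply, MvPolynomial.aeval_X, MvPolynomial.aeval_X, map_mul, Polynomial.aeval_C, map_pow,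
      Polynomial.aeval_X, hq i]
    rfl
  have h4 : φ f = 0 := by
    by_contra hne
    exact H340R2.LW.transcendental_pi ⟨φ f, hne, h3⟩
  have h5 : (Polynomial.aeval (Polynomial.C Real.pi * Polynomial.X : Polynomial ℝ)) (φ f) =
      MvPolynomial.aeval (fun u : {u : List ℕ // Ad u ∧ u ∈ fronts w} => Zg u.1) f := by
    rw [hφ, ← AlgHom.comp_apply]
    congr 1
    refine MvPolynomial.algHom_ext fun i => ?_
    rw [AlgHom.comp_apply, MvPolynomial.aeval_X, MvPolynomial.aeval_X, map_mul, Polynomial.aeval_C, map_pow,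
      Polynomial.aeval_X, Zg, hq i, mul_pow, ← Polynomial.C_pow, Polynomial.C_mul, ← mul_assoc]
    rfl
  rw [← h5, h4, map_zero]

/-- the polynomial relations split if the spaces are direct -/
theorem splits_of_direct (h : ∀ p, IsDirect p) : Splits Set.univ := by
  classical
  rw [splits_iff]
  intro f hf
  set g : {u : List ℕ // Ad u ∧ u ∈ (Set.univ : Set (List ℕ))} → List ℕ := fun u => u.1 with hg
  obtain ⟨d, hd, c0, L, hL, hlin⟩ := Pool.Agent.N734.MZ.lin g (fun u => u.2.1) f
  have h1 := hlin (Polynomial ℝ) Zg Pool.Agent.N734.MZ.st_Zg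
  set F : Polynomial ℝ := MvPolynomial.aeval (fun u => Zg (g u)) f with hF
  have hd0 : (d : ℝ) ≠ 0 := by exact_mod_cast hd.ne'
  have hgen : ∀ u : List ℕ, (u = [] ∨ Ad u) → Pool.Agent.Y760.ZG.mz u ∈ Z u.sum := by
    intro u hu
    refine Submodule.subset_span ⟨u, ?_, rfl, by rw [mzv_fun]⟩
    rwa [adm_iff]
  have hcoef : ∀ j, F.coeff j ∈ Z j := by
    intro j
    have h2 : (d : ℝ) * F.coeff j ∈ Z j := by
      have h3 : ((d : Polynomial ℝ) * F).coeff j = (d : ℝ) * F.coeff j := by
        rw [← Polynomial.C_eq_natCast, Polynomial.coeff_C_mul]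
      rw [← h3, h1, Polynomial.coeff_add]
      refine Submodule.add_mem _ ?_ ?_
      · rw [← Polynomial.C_eq_intCast, Polynomial.coeff_C]
        split_ifs with hj
        · subst hj
          have h4 := Submodule.smul_mem _ (c0 : ℚ) (hgen [] (Or.inl rfl))
          rw [List.sum_nil, Pool.Agent.Y760.ZG.mz, Rat.smul_def, mul_one] at h4
          simpa using h4
        · exact Submodule.zero_mem _
      · clear h1 hlin h3
        induction L with
        | nil => simp
        | cons e L ih =>
          rw [List.map_cons, List.sum_cons, Polynomial.coeff_add]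
          refine Submodule.add_mem _ ?_ (ih fun x hx => hL x (List.mem_cons_of_mem _ hx))
          rw [← Polynomial.C_eq_intCast, Polynomial.coeff_C_mul, Zg, Polynomial.coeff_C_mul_X_pow]
          split_ifs with hj
          · rw [hj]
            have h4 := Submodule.smul_mem _ (e.1 : ℚ) (hgen e.2 (Or.inr (hL e List.mem_cons_self)))
            rw [Rat.smul_def] at h4
            simpa using h4
          · rw [mul_zero]
            exact Submodule.zero_mem _
    have h5 := Submodule.smul_mem _ ((d : ℚ)⁻¹) h2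
    rw [Rat.smul_def] at h5
    have h6 : (((d : ℚ)⁻¹ : ℚ) : ℝ) * ((d : ℝ) * F.coeff j) = F.coeff j := by
      push_cast
      rw [← mul_assoc, inv_mul_cancel₀ hd0, one_mul]
    rwa [h6] at h5
  have heval : F.eval 1 = 0 := by
    rw [hF, ← hf]
    have h2 : (Polynomial.evalRingHom (1 : ℝ)) (MvPolynomial.aeval (fun u => Zg (g u)) f) =
        MvPolynomial.aeval (fun u => Pool.Agent.Y760.ZG.mz (g u)) f := by
      rw [MvPolynomial.aeval_def, MvPolynomial.aeval_def, MvPolynomial.hom_eval₂]
      congr 1
      · exact Subsingleton.elim _ _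
      · funext u
        simp [Zg]
    exact h2
  rw [Polynomial.eval_eq_sum_range] at heval
  simp only [one_pow, mul_one] at heval
  have h7 := h F.natDegree (fun j => F.coeff j) (fun j _ => hcoef j) heval
  ext j
  by_cases hj : j ≤ F.natDegree
  · rw [h7 j hj, Polynomial.coeff_zero]
  · rw [Polynomial.coeff_eq_zero_of_natDegree_lt (by omega), Polynomial.coeff_zero]

/-- the spaces are direct if the polynomial relations split -/
theorem direct_of_splits (h : Splits Set.univ) (p : ℕ) : IsDirect p := by
  classical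
  intro z hz hsum
  rw [splits_iff] at h
  have h1 : ∀ j, ∀ x ∈ Z j, ∃ f : MvPolynomial {u : List ℕ // Ad u ∧ u ∈ (Set.univ : Set (List ℕ))} ℚ,
      MvPolynomial.aeval (fun u => Pool.Agent.Y760.ZG.mz u.1) f = x ∧
      MvPolynomial.aeval (fun u => Zg u.1) f = Polynomial.C x * Polynomial.X ^ j := by
    intro j x hx
    induction hx using Submodule.span_induction with
    | mem x hx =>
      obtain ⟨u, hu, hj, rfl⟩ := hx
      rcases hu with rfl | hu
      · refine ⟨1, ?_, ?_⟩
        · rw [map_one, mzv]
        · rw [List.sum_nil] at hj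
          rw [map_one, ← hj, pow_zero, mzv, Polynomial.C_1, one_mul]
      · refine ⟨MvPolynomial.X ⟨u, (adm_iff u).1 hu, trivial⟩, ?_, ?_⟩
        · rw [MvPolynomial.aeval_X, mzv_fun]
        · rw [MvPolynomial.aeval_X, Zg, hj, mzv_fun]
    | zero => exact ⟨0, by rw [map_zero], by simp⟩
    | add x y _ _ hx hy =>
      obtain ⟨f, hf, hf'⟩ := hx
      obtain ⟨f₂, hf₂, hf₂'⟩ := hy
      exact ⟨f + f₂, by rw [map_add, hf, hf₂], by rw [map_add, hf', hf₂', Polynomial.C_add, add_mul]⟩
    | smul a x _ hx =>
      obtain ⟨f, hf, hf'⟩ := hx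
      refine ⟨a • f, by rw [map_smul, hf], ?_⟩
      rw [map_smul, hf', Algebra.smul_def, Algebra.smul_def, Polynomial.C_mul, mul_assoc]
      rfl
  have h2 : ∀ j, ∃ f : MvPolynomial {u : List ℕ // Ad u ∧ u ∈ (Set.univ : Set (List ℕ))} ℚ, j ≤ p →
      MvPolynomial.aeval (fun u => Pool.Agent.Y760.ZG.mz u.1) f = z j ∧
      MvPolynomial.aeval (fun u => Zg u.1) f = Polynomial.C (z j) * Polynomial.X ^ j := by
    intro j
    by_cases hj : j ≤ p
    · obtain ⟨f, hf⟩ := h1 j (z j) (hz j hj)
      exact ⟨f, fun _ => hf⟩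
    · exact ⟨0, fun h => absurd h hj⟩
  choose f hf using h2
  have h3 := h (∑ j ∈ Finset.range (p + 1), f j) (by
    rw [map_sum, ← hsum]
    exact Finset.sum_congr rfl fun j hj => (hf j (by rw [Finset.mem_range] at hj; omega)).1)
  rw [map_sum, Finset.sum_congr rfl fun j hj => (hf j (by rw [Finset.mem_range] at hj; omega)).2] at h3
  intro j hj
  have h4 := congrArg (fun F : Polynomial ℝ => F.coeff j) h3
  simp only [Polynomial.finsetSum_coeff, Polynomial.coeff_C_mul_X_pow, Polynomial.coeff_zero] at h4
  rw [Finset.sum_ite_eq, if_pos (Finset.mem_range.2 (by omega))] at h4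
  exact h4

/-- the linear forms at the graded family -/
theorem coeff_linear {r : ℕ} (g : Fin r → List ℕ) (a : Fin r → ℤ) (p : ℕ) :
    (∑ i, ((a i : ℤ) : Polynomial ℝ) * Zg (g i)).coeff p =
      ∑ i with (g i).sum = p, (a i : ℝ) * mzv (g i) := by
  rw [Polynomial.finsetSum_coeff, Finset.sum_filter]
  refine Finset.sum_congr rfl fun i _ => ?_
  rw [← Polynomial.C_eq_intCast, Polynomial.coeff_C_mul, Zg, Polynomial.coeff_C_mul_X_pow, mzv_fun]
  by_cases h : p = (g i).sum
  · rw [if_pos h, if_pos h.symm]
  · rw [if_neg h, if_neg (Ne.symm h), mul_zero]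

theorem b_to_c (h : AlmostAll) : OneLargeArgument := by
  classical
  intro r w hw B s₁
  by_contra hcon
  push Not at hcon
  obtain ⟨K, hK⟩ := h 1 r w (fun i => (hw i).1) 1 4
  obtain ⟨N₀, hN⟩ := hK (B + 1 : ℝ)
  set N := N₀ + s₁ + K + 2 with hNdef
  have h1 : {s : Fin 1 → ℕ | (∀ j, N ≤ s j ∧ s j ≤ 4 * N) ∧ Bad w 1 ((B + 1 : ℝ) ^ N) s}.ncard ≤
      K * N ^ (1 - 1) := hN N (by omega)
  rw [Nat.sub_self, pow_zero, mul_one] at h1
  let φ : ℕ → Fin 1 → ℕ := fun i _ => 2 * (N + i) + 1
  have hφ : Function.Injective φ := by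
    intro i j hij
    have := congrFun hij 0
    simp only [φ] at this
    omega
  have h2 : φ '' ((Finset.range (K + 1) : Finset ℕ) : Set ℕ) ⊆
      {s : Fin 1 → ℕ | (∀ j, N ≤ s j ∧ s j ≤ 4 * N) ∧ Bad w 1 ((B + 1 : ℝ) ^ N) s} := by
    rintro s ⟨i', hi, rfl⟩
    rw [Finset.mem_coe, Finset.mem_range] at hi
    refine ⟨fun j => ⟨by simp only [φ]; omega, by simp only [φ]; omega⟩, ?_⟩
    obtain ⟨a, ha, hR, p, hA⟩ := hcon (2 * (N + i') + 1) (by omega) ⟨N + i', rfl⟩
    refine ⟨∑ i, MvPolynomial.C (a i) * MvPolynomial.X i, ?_, fun m => ?_, ?_, p, ?_⟩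
    · refine MvPolynomial.totalDegree_finsetSum_le fun i _ => ?_
      refine (MvPolynomial.totalDegree_mul _ _).trans ?_
      rw [MvPolynomial.totalDegree_C, zero_add]
      exact (MvPolynomial.totalDegree_X _).le
    · rw [MvPolynomial.coeff_sum]
      simp only [MvPolynomial.coeff_C_mul, MvPolynomial.coeff_X]
      have hB1 : (B : ℝ) ≤ (B + 1 : ℝ) ^ N := by
        have h3 : (B + 1 : ℝ) ^ 1 ≤ (B + 1 : ℝ) ^ N :=
          pow_le_pow_right₀ (by have := Nat.cast_nonneg (α := ℝ) B; linarith) (by omega)
        rw [pow_one] at h3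
        linarith
      refine le_trans ?_ hB1
      by_cases hm : ∃ i, Finsupp.single i 1 = m
      · obtain ⟨i₀, rfl⟩ := hm
        have h4 : ∑ x, a x * (if Finsupp.single x 1 = Finsupp.single i₀ 1 then (1 : ℤ) else 0) = a i₀ := by
          rw [Finset.sum_eq_single i₀]
          · rw [if_pos rfl, mul_one]
          · intro x _ hx
            rw [if_neg, mul_zero]
            intro h5
            exact hx ((Finsupp.single_left_inj one_ne_zero).1 h5)
          · intro h5
            exact absurd (Finset.mem_univ _) h5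
        rw [h4]
        exact_mod_cast ha i₀
      · have h4 : ∑ x, a x * (if Finsupp.single x 1 = m then (1 : ℤ) else 0) = 0 := by
          refine Finset.sum_eq_zero fun x _ => ?_
          rw [if_neg fun h5 => hm ⟨x, h5⟩, mul_zero]
        rw [h4, Int.cast_zero, abs_zero]
        exact Nat.cast_nonneg _
    · rw [map_sum]
      refine Eq.trans (Finset.sum_congr rfl fun i _ => ?_) hR
      rw [map_mul, MvPolynomial.aeval_C, MvPolynomial.aeval_X]
      rfl
    · rw [← coeff_gval, gval, map_sum]
      intro h5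
      refine hA ?_
      rw [← coeff_linear (fun i => index (fun _ => 2 * (N + i') + 1) (w i)) a p, ← h5]
      congr 1
      refine Finset.sum_congr rfl fun i _ => ?_
      rw [map_mul, MvPolynomial.aeval_C, MvPolynomial.aeval_X]
      rfl
  have hfin : {s : Fin 1 → ℕ | (∀ j, N ≤ s j ∧ s j ≤ 4 * N) ∧ Bad w 1 ((B + 1 : ℝ) ^ N) s}.Finite := by
    refine (Set.Finite.pi' (t := fun _ : Fin 1 => Set.Icc N (4 * N)) fun _ => Set.finite_Icc _ _).subset ?_
    intro s hs j
    exact ⟨(hs.1 j).1, (hs.1 j).2⟩
  have h3 := Set.ncard_le_ncard h2 hfin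
  rw [Set.ncard_image_of_injective _ hφ, Set.ncard_coe_finset, Finset.card_range] at h3
  omega

theorem mz_pos_single (s : ℕ) (hs : 2 ≤ s) : Pool.Agent.Y760.ZG.mz [s] ≠ 0 := by
  have h1 : Summable fun k : ℕ => (1 : ℝ) / ((k + 1 : ℕ) : ℝ) ^ s := by
    have h2 := (Real.summable_one_div_nat_pow (p := s)).2 (by omega)
    exact (summable_nat_add_iff 1).2 h2
  rw [Pool.Agent.Y760.ZG.mz]
  have h2 : ∀ k : ℕ, Pool.Agent.Y760.ZG.hr [] (k + 1) / ((k + 1 : ℕ) : ℝ) ^ s =
      (1 : ℝ) / ((k + 1 : ℕ) : ℝ) ^ s := fun k => by rw [Pool.Agent.Y760.ZG.hr]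
  rw [tsum_congr h2]
  have h3 := h1.tsum_pos (fun k => by positivity) 0 (by positivity)
  exact h3.ne'

theorem c_to_a (h : OneLargeArgument) : Splits Set.univ := by
  rw [splits_iff]
  intro f hf
  refine Pool.Agent.N734.MZ.back (fun u : {u : List ℕ // Ad u ∧ u ∈ (Set.univ : Set (List ℕ))} => u.1)
    (fun u => u.2.1) (Polynomial ℝ) Zg Pool.Agent.N734.MZ.st_Zg 2 ?_ ?_ f hf
  · intro s hs _
    rw [Zg]
    exact mul_ne_zero (by rw [Ne, Polynomial.C_eq_zero]; exact mz_pos_single s hs)
      (pow_ne_zero _ Polynomial.X_ne_zero)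
  · intro r w hw B s₁
    have hw' : ∀ i, AdmissiblePattern (w i) ∧ OneLarge (w i) := by
      intro i
      refine ⟨⟨?_, (hw i).1⟩, (hw i).2⟩
      obtain ⟨p, b, q, h4⟩ := (hw i).2
      rw [h4]
      simp
    obtain ⟨s, h1, h2, h3⟩ := h r w hw' B s₁
    refine ⟨s, h1, h2, fun a ha h4 => ?_⟩
    have h5 := h3 a ha (by
      rw [mzv_fun]
      exact h4)
    ext p
    rw [Polynomial.coeff_zero, ← h5 p]
    exact coeff_linear (fun i => index (fun _ => s) (w i)) a p

theorem a_to_b (h : Splits Set.univ) : AlmostAll := by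
  intro k r w hw D κ
  refine part2 w hw ?_ D κ
  intro f hf p
  let ρ : {u : List ℕ // Admissible u ∧ u ∈ fronts w} → {u : List ℕ // Admissible u ∧ u ∈ (Set.univ : Set (List ℕ))} :=
    fun u => ⟨u.1, u.2.1, trivial⟩
  have h1 := h (MvPolynomial.rename ρ f) (by
    rw [MvPolynomial.aeval_rename]
    exact hf)
  rw [← gval_eq_zero, gval, MvPolynomial.aeval_rename] at h1
  exact (gval_eq_zero (fun u : {u : List ℕ // Admissible u ∧ u ∈ fronts w} => u.1) f).1 h1 p

/-- **Theorem.** (1) For admissible patterns `w_1, ..., w_r` in `k` variables with even fronts and for `D`, `κ` there is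
`K` such that for all `C` and all large `N` at most `K N ^ (k - 1)` tuples `s ∈ [N, κ N] ^ k` are bad for the degree `D`
and the height `C ^ N`: all but these have only relations, of this degree and height, between the multiple zeta values of
the patterns that split into relations of one weight. (2) The same holds for arbitrary admissible patterns if all
polynomial relations between the multiple zeta values of the fronts split into relations of one weight. (3) Equivalent
are: all sums `Z_0 + ... + Z_p` are direct; for all admissible patterns, `D`, `κ` the conclusion of (1) holds; for all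
patterns with exactly one nonconstant letter `s + b` and all `B` there are arbitrarily large odd `s` for which all linear
relations with integer coefficients at most `B` between the multiple zeta values of the patterns at `s` split. -/
theorem result :
    (∀ (k r : ℕ) (w : Fin r → List (Letter k)), (∀ i, AdmissiblePattern (w i)) → (∀ i, EvenFront (w i)) →
      ∀ D κ : ℕ, Few κ fun H s => Bad w D H s) ∧
    (∀ (k r : ℕ) (w : Fin r → List (Letter k)), (∀ i, AdmissiblePattern (w i)) → Splits (fronts w) →
      ∀ D κ : ℕ, Few κ fun H s => Bad w D H s) ∧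
    ((∀ p, IsDirect p) ↔ AlmostAll) ∧ (AlmostAll ↔ OneLargeArgument) :=
  ⟨fun _ _ w hw he D κ => part2 w hw (even_splits w he) D κ, fun _ _ w hw hS D κ => part2 w hw hS D κ,
    ⟨fun h => a_to_b (splits_of_direct h), fun h => direct_of_splits (c_to_a (b_to_c h))⟩,
    ⟨b_to_c, fun h => a_to_b (c_to_a h)⟩⟩

end Pool.Agent.Results.MP_4d52ff_nt.AlmostAllTuples
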