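import Pool.Agent.N628.CMT.Gen
import Pool.Agent.Results.MP_4d52ff_nt.AlmostAllTuples

/-!
# MP_4d52ff_nt: relations between multiple zeta values with arguments near all multiples of Carmichael's function split into
# relations of one weight

A pattern in `k` variables is a nonempty list of letters `b + u_1 s_1 + ... + u_k s_k`; at a tuple `s` of natural numbers
it gives an index. The tuple `s` is bad (for `D` and `H`) if there is a polynomial relation of degree at most `D` with integer
coefficients at most `H` between the multiple zeta values of the patterns at `s` such that its part of some weight is not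
a relation; this is a nontrivial relation `z_0 + ... + z_p = 0` with `z_j` in the space `Z_j`.

Let `w_1, ..., w_r` be admissible patterns in `k` variables such that the constant first letters of each pattern are equal and
even, such as `ζ(2, 2, 2, s_1, 3)`, `ζ(s_1, s_2)` and `ζ(4, 4)` (or for which the relations between the multiple zeta values
of the fronts split). Let `B ≥ 1`, `B (k - 1) < k`; for `k = 1` every `B` is allowed. We prove: for all `k`-tuples `m` of
positive integers up to `N` but `N^k / (log N)^U`, for EVERY tuple `v` of multiples `v_i ≤ N^B` of Carmichael's function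
`λ(m_i)`, and for ALL tuples `s = (a_i v_i + b_i)` with integers `a_i ≠ 0`, `|a_i|, |b_i| ≤ v_l^η` for some `l`, and all `X`
with `X ≤ s_i ≤ κ X` for all `i`, EVERY polynomial relation of degree at most `D` with integer coefficients of absolute value
at most `C ^ X` between the `ζ(w_i(s))` splits into relations of one weight. More generally `v_i` is any common multiple of
the values `f_i(p)`, `p` running through the large primes which divide `m_i` exactly once, where `f_i` takes each positive
value at boundedly many primes.

The theorem `AlmostAllTuples` of this page (helper734) bounds the number of the bad tuples in `[N, κ N] ^ k` by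
`K N ^ (k - 1)`. But a single `v ≤ N^B` can be a multiple of `λ(m)` for more than `N^(1 - ε)` numbers `m ≤ N` (popular
values), and all multiples `v_i` of `λ(m_i)` up to `N^B`, with all their windows, are considered at once. So this does not
follow from the number of the bad tuples. The proof uses the tool `N790/CM` of helper790: outside a set of `N / (log N)^U`
numbers `m ≤ N` every `v ≤ N^B` is a common multiple for at most `N^δ` of the `m`.
-/

set_option autoImplicit false

namespace Pool.Agent.Results.MP_4d52ff_nt.CarmichaelMultiples

open Pool.Agent.N790.CM (FewTimes Carries fewTimes_pred carries_carmichael)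
open Pool.Agent.N628.CMT (NearMultiple powers)
open Pool.Agent.Results.MP_4d52ff_nt.AlmostAllTuples (Letter AdmissiblePattern EvenFront Splits fronts Bad)

theorem bad_mono {k r : ℕ} (w : Fin r → List (Letter k)) (D : ℕ) (H H' : ℝ) (s : Fin k → ℕ) (h : H ≤ H')
    (hs : Bad w D H s) : Bad w D H' s := by
  obtain ⟨P, h1, h2, h3⟩ := hs
  exact ⟨P, h1, fun m => (h2 m).trans h, h3⟩

/-- Let `k ≥ 1`, `B ≥ 1`, `B (k - 1) < k`. There is `η > 0` such that for all admissible patterns `w_1, ..., w_r` in `k`
variables with even fronts (or for which the relations between the multiple zeta values of the fronts split), all `D`, `κ`,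
`C`, all `F_1, ..., F_k` which take each positive value at most `T` times at the primes and all `U`, for all large `N` and all
but at most `N^k / (log N)^U` of the tuples `m` of integers in `[1, N]`: for ALL `v` with `1 ≤ v_i ≤ N^B` and `F_i(p) ∣ v_i`
for all primes `p > exp (√(log N))` which divide `m_i` exactly once, for ALL tuples `s` of natural numbers
`s_i = a_i v_i + b_i` with integers `a_i ≠ 0`, `|a_i|, |b_i| ≤ v_l^η` for some `l`, and all `X ≥ 1` with `X ≤ s_i ≤ κ X` for
all `i`, every polynomial relation of degree at most `D` with integer coefficients of absolute value at most `C ^ X` between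
the multiple zeta values `ζ(w_i(s))` splits into relations of one weight. The function `f(p) = p - 1` takes each value at most
once, and every multiple of Carmichael's function `λ(m)` is divisible by `p - 1` for all `p ∣ m`. -/
theorem result :
    (∀ k : ℕ, 1 ≤ k → ∀ B : ℝ, 1 ≤ B → B * ((k : ℝ) - 1) < k → ∃ η : ℝ, 0 < η ∧
      ∀ (r : ℕ) (w : Fin r → List (Letter k)), (∀ i, AdmissiblePattern (w i)) →
      (∀ i, EvenFront (w i)) ∨ Splits (fronts w) → ∀ (D κ : ℕ) (C : ℝ) (T : ℕ) (F : Fin k → ℕ → ℕ),
      (∀ i, FewTimes (F i) T) → ∀ U : ℕ, ∃ N₀ : ℕ, ∀ N : ℕ, N₀ ≤ N →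
      ({m : Fin k → ℕ | (∀ i, 1 ≤ m i ∧ m i ≤ N) ∧ ¬ ∀ v : Fin k → ℕ, (∀ i, 1 ≤ v i ∧ (v i : ℝ) ≤ (N : ℝ) ^ B ∧
        Carries (F i) (Real.exp √(Real.log N)) (m i) (v i)) → ∀ (s : Fin k → ℕ) (X : ℕ), 1 ≤ X →
        (∀ i, X ≤ s i ∧ s i ≤ κ * X) → NearMultiple η v s → ¬ Bad w D (C ^ X) s}.ncard : ℝ) ≤
        (N : ℝ) ^ k / Real.log N ^ U) ∧
    FewTimes (fun p => p - 1) 1 ∧
    ∀ (y : ℝ) (m v : ℕ), ArithmeticFunction.carmichael m ∣ v → Carries (fun p => p - 1) y m v := by
  refine ⟨fun k hk B hB hBk => ?_, fewTimes_pred, carries_carmichael⟩
  obtain ⟨η, hη, h⟩ := powers hk hB hBk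
  refine ⟨η, hη, fun r w hw hf D κ C T F hF U => ?_⟩
  refine h (fun H s => Bad w D H s) (fun H H' s => bad_mono w D H H' s) (fun κ' => ?_) κ C T F hF U
  rcases hf with hf | hf
  · exact AlmostAllTuples.result.1 k r w hw hf D κ'
  · exact AlmostAllTuples.result.2.1 k r w hw hf D κ'

end Pool.Agent.Results.MP_4d52ff_nt.CarmichaelMultiples
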