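import Mathlib
import Pool.Agent.N778.MZ.Tup

set_option autoImplicit false

/-!
# Damped multiple zeta values: directness of the sum over the weights

For a sequence `w = (k_1, …, k_r)`, `r ≥ 1`, of positive integers and `j ≥ 0` let `H_j(w)` be the truncated multiple zeta
value `∑ 1/(m_1^{k_1} … m_r^{k_r})`, the sum over `j ≥ m_1 > … > m_r ≥ 1`, and, if `w` is admissible (`k_1 ≥ 2`), `ζ(w)`
the multiple zeta value. Let `S_w(x) = exp (-x) * ∑_j x^j/j! * H_j(w)` be the Poisson mean of the truncated values and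
`T_w(x) = exp (-x) * ∑_j x^j/j! * (ζ(w) - H_j(w))` the Poisson mean of the tails (the sums over `m_1 > j`). So
`T_w(0) = ζ(w)`, `S_w(x) + T_w(x) = ζ(w)` and `S_w(x) → ζ(w)` for real `x → ∞`.

Let `F` be the field which is generated by all algebraic numbers and all numbers `exp b`, `b` algebraic. For `k ≥ 1` let
`Z_k(x)` be the space over `F` which is spanned by the numbers `T_w(x)` for the admissible `w` of weight `k`, and
`Z_0(x) = F`. So `Z_k(0)` is the space over `F` which is spanned by the multiple zeta values of weight `k`. Let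
`V_p = Z_0(0) + … + Z_p(0)`.

(1) The sum `Z_0(x) + … + Z_p(x)` is direct for all but at most `dim Z_2(0) + … + dim Z_p(0)` of the algebraic
numbers `x`, including `x = 0`. (By Terasoma and Deligne-Goncharov this number is at most `d_2 + … + d_p`, where
`∑ d_k t^k = 1/(1 - t^2 - t^3)`.)

(2) For all `p` there are finite sets `E_2, …, E_p` of at most `dim V_p - 1` numbers with the following property. For all
algebraic numbers `x_2, …, x_p`, different from `0`, such that `x_k` is not in `E_k`, the sum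
`V_p + Z_2(x_2) + … + Z_p(x_p)` is direct and the dimension of `Z_k(x_k)` is `2 ^ (k - 2)`, the number of the admissible
sequences of weight `k`. In particular this is true if all `x_k` are equal to one `x` and `x` is not in the union of the
sets.

Proof. The numbers `S_w(x)`, for all sequences `w` and all algebraic `x ≠ 0`, and `1` are linearly independent over `F`
(`Pool.Agent.N778.MZ`, with helper902's algebra of words and the Siegel-Shidlovskii theorem in the starting files). A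
relation says that a combination `∑ c_w S_w(x_k)` is in `V_p`; for tuples which differ in all coordinates these
elements of `V_p` are linearly independent. (2) follows with a maximal set of exceptional tuples any two of which differ in all
coordinates.
-/

namespace Pool.Agent.Results.MP_4d52ff_nt.DampedDirectness

open Filter Topology

/-- the truncated multiple zeta value: `H_j(k_1, …, k_r)` is the sum over `j ≥ m_1 > … > m_r ≥ 1` -/
noncomputable def H : List ℕ → ℕ → ℂ
  | [], _ => 1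
  | k :: w, j => ∑ i ∈ Finset.range j, H w i / ((i : ℂ) + 1) ^ k

/-- the multiple zeta value (here `m_1 = i + 1`) -/
noncomputable def zeta : List ℕ → ℂ
  | [] => 1
  | k :: w => ∑' i : ℕ, H w i / ((i : ℂ) + 1) ^ k

/-- the tail: the sum over `m_1 > j` (here `m_1 = i + j + 1`) -/
noncomputable def tail : List ℕ → ℕ → ℂ
  | [], _ => 0
  | k :: w, j => ∑' i : ℕ, H w (i + j) / ((i : ℂ) + j + 1) ^ k

/-- `S_w(x)` -/
noncomputable def S (w : List ℕ) (x : ℂ) : ℂ := Complex.exp (-x) * ∑' j : ℕ, x ^ j / j.factorial * H w j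

/-- `T_w(x)` -/
noncomputable def T (w : List ℕ) (x : ℂ) : ℂ := Complex.exp (-x) * ∑' j : ℕ, x ^ j / j.factorial * tail w j

/-- nonempty sequences of integers `≥ 1` -/
def Pos (w : List ℕ) : Prop := w ≠ [] ∧ ∀ k ∈ w, 1 ≤ k

/-- nonempty sequences of integers `≥ 1` with `k_1 ≥ 2` -/
def Admissible (w : List ℕ) : Prop := Pos w ∧ ∀ k ∈ w.head?, 2 ≤ k

/-- the field `F` -/
noncomputable def baseField : IntermediateField ℚ ℂ := IntermediateField.adjoin ℚ
  ({z | IsAlgebraic ℚ z} ∪ {z | ∃ b : ℂ, IsAlgebraic ℚ b ∧ z = Complex.exp b})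

/-- the space `Z_k(x)` over `F`; `Z_0(x) = F` -/
noncomputable def Z (k : ℕ) (x : ℂ) : Submodule baseField ℂ :=
  if k = 0 then Submodule.span baseField {1}
  else Submodule.span baseField {z | ∃ w : List ℕ, Admissible w ∧ w.sum = k ∧ z = T w x}

/-- the sum `Z_0(x) + … + Z_p(x)` is direct -/
def Direct (p : ℕ) (x : ℂ) : Prop :=
  ∀ z : Fin (p + 1) → ℂ, (∀ j : Fin (p + 1), z j ∈ Z j x) → ∑ j, z j = 0 → ∀ j, z j = 0

/-- the space `V_p`, the sum of `Z_0(0), …, Z_p(0)` -/
noncomputable def V (p : ℕ) : Submodule baseField ℂ := ⨆ j : Fin (p + 1), Z j 0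

open Pool.Agent.N778

theorem baseField_eq : baseField = MZ.L0 := rfl

theorem H_eq (w : List ℕ) (j : ℕ) : H w j = MZ.H w j := by
  induction w generalizing j with
  | nil => rfl
  | cons k w ih =>
    rw [H, MZ.H]
    exact Finset.sum_congr rfl fun i _ => by rw [ih]

theorem zeta_eq (w : List ℕ) : zeta w = MZ.zt w := by
  rcases w with _ | ⟨k, w⟩
  · rfl
  · rw [zeta, MZ.zt]
    exact tsum_congr fun i => by rw [H_eq]

theorem tail_eq (w : List ℕ) (j : ℕ) : tail w j = MZ.tl w j := by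
  rcases w with _ | ⟨k, w⟩
  · rfl
  · rw [tail, MZ.tl]
    exact tsum_congr fun i => by rw [H_eq]

theorem S_eq (w : List ℕ) (x : ℂ) : S w x = MZ.S w x := by
  rw [S, MZ.S]
  congr 1
  exact tsum_congr fun j => by rw [H_eq]

theorem T_eq (w : List ℕ) (x : ℂ) : T w x = MZ.T w x := by
  rw [T, MZ.T]
  congr 1
  exact tsum_congr fun j => by rw [tail_eq]

theorem adm_iff {w : List ℕ} (h : Admissible w) : MZ.AdW w := by
  rcases w with _ | ⟨k, w⟩
  · exact absurd rfl h.1.1
  · exact ⟨h.2 k (by simp), fun l hl => h.1.2 l (List.mem_cons_of_mem _ hl)⟩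

theorem li_S (X : Set ℂ) (hX : ∀ x ∈ X, IsAlgebraic ℚ x ∧ x ≠ 0) : LinearIndependent baseField
    (fun o : Option {p : List ℕ × ℂ // Pos p.1 ∧ p.2 ∈ X} => (o.elim 1 (fun p => S p.1.1 p.1.2) : ℂ)) := by
  have h := MZ.li_Sn X hX
  have e : (fun o : Option {p : List ℕ × ℂ // Pos p.1 ∧ p.2 ∈ X} => (o.elim 1 (fun p => S p.1.1 p.1.2) : ℂ)) =
      (fun o : Option {p : List ℕ × ℂ // MZ.Wo p.1 ∧ p.2 ∈ X} => (o.elim 1 (fun p => MZ.S p.1.1 p.1.2) : ℂ)) := by
    funext o
    rcases o with _ | p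
    · rfl
    · exact S_eq p.1.1 p.1.2
  rw [e]
  exact h

theorem adm_iff' {w : List ℕ} : Admissible w ↔ MZ.AdW w := by
  refine ⟨adm_iff, fun h => ⟨h.wo, ?_⟩⟩
  rcases w with _ | ⟨k, w⟩
  · exact absurd h id
  · intro l hl
    have e : k = l := by simpa using hl
    rw [← e]
    exact h.1

theorem T_sub {w : List ℕ} (hw : MZ.AdW w) (x : ℂ) : T w x = zeta w - S w x := by
  rw [T_eq, zeta_eq, S_eq]
  exact MZ.Tn_eq hw x

theorem T_zero {w : List ℕ} (hw : MZ.AdW w) : T w 0 = zeta w := by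
  rw [T_eq, zeta_eq]
  exact MZ.T_zeron hw

/-- all admissible words of weight at most `p` -/
noncomputable def WW (p : ℕ) : Finset (List ℕ) := (Finset.range (p + 1)).biUnion MZ.Wd

theorem mem_WW {p : ℕ} {w : List ℕ} : w ∈ WW p ↔ MZ.AdW w ∧ w.sum ≤ p := by
  rw [WW, Finset.mem_biUnion]
  constructor
  · rintro ⟨n, hn, hw⟩
    rw [MZ.mem_Wd] at hw
    exact ⟨hw.1, by rw [hw.2]; exact Nat.lt_succ_iff.1 (Finset.mem_range.1 hn)⟩
  · rintro ⟨h1, h2⟩
    exact ⟨w.sum, Finset.mem_range.2 (Nat.lt_succ_iff.2 h2), MZ.mem_Wd.2 ⟨h1, rfl⟩⟩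

theorem AdW_sum {w : List ℕ} (hw : MZ.AdW w) : 2 ≤ w.sum := by
  rcases w with _ | ⟨k, w⟩
  · exact absurd hw id
  · rw [List.sum_cons]
    have := hw.1
    omega

theorem mem_Z {k : ℕ} (hk : k ≠ 0) {x z : ℂ} (hz : z ∈ Z k x) :
    ∃ c : List ℕ → baseField, z = ∑ w ∈ MZ.Wd k, c w • T w x := by
  classical
  rw [Z, if_neg hk] at hz
  have e : {z | ∃ w : List ℕ, Admissible w ∧ w.sum = k ∧ z = T w x} = (fun w => T w x) '' (MZ.Wd k : Set (List ℕ)) := by
    ext z
    constructor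
    · rintro ⟨w, h1, h2, rfl⟩
      exact ⟨w, Finset.mem_coe.2 (MZ.mem_Wd.2 ⟨adm_iff'.1 h1, h2⟩), rfl⟩
    · rintro ⟨w, hw, rfl⟩
      have h3 := MZ.mem_Wd.1 (Finset.mem_coe.1 hw)
      exact ⟨w, adm_iff'.2 h3.1, h3.2, rfl⟩
  rw [e] at hz
  obtain ⟨c, hc⟩ := (Submodule.mem_span_image_finset_iff_exists_fun baseField).1 hz
  refine ⟨fun w => if hw : w ∈ MZ.Wd k then c ⟨w, hw⟩ else 0, ?_⟩
  rw [← hc, ← Finset.sum_coe_sort (MZ.Wd k)]
  refine Finset.sum_congr rfl fun w _ => ?_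
  show c w • T w x = (if hw : (w : List ℕ) ∈ MZ.Wd k then c ⟨w, hw⟩ else 0) • T w x
  rw [dif_pos w.2]

theorem T_mem {w : List ℕ} (hw : MZ.AdW w) (x : ℂ) : T w x ∈ Z w.sum x := by
  rw [Z, if_neg (by have := AdW_sum hw; omega)]
  exact Submodule.subset_span ⟨w, adm_iff'.2 hw, rfl, rfl⟩

theorem fin_Z (k : ℕ) (x : ℂ) : Module.Finite baseField (Z k x) := by
  classical
  by_cases hk : k = 0
  · have e : Z k x = Submodule.span baseField {1} := if_pos hk
    rw [e]
    exact Module.Finite.span_of_finite baseField (Set.finite_singleton _)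
  · have e : Z k x = Submodule.span baseField {z | ∃ w : List ℕ, Admissible w ∧ w.sum = k ∧ z = T w x} := if_neg hk
    rw [e]
    refine Module.Finite.span_of_finite baseField (((MZ.Wd k).finite_toSet.image fun w => T w x).subset ?_)
    rintro z ⟨w, h1, h2, rfl⟩
    exact ⟨w, Finset.mem_coe.2 (MZ.mem_Wd.2 ⟨adm_iff'.1 h1, h2⟩), rfl⟩

theorem fin_V (p : ℕ) : Module.Finite baseField (V p) := by
  rw [V]
  have : ∀ j : Fin (p + 1), Module.Finite baseField (Z j 0) := fun j => fin_Z j 0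
  exact Submodule.finite_iSup _

theorem one_mem (p : ℕ) : (1 : ℂ) ∈ V p := by
  refine Submodule.mem_iSup_of_mem (⟨0, Nat.succ_pos p⟩ : Fin (p + 1)) ?_
  show (1 : ℂ) ∈ Z 0 0
  rw [Z, if_pos rfl]
  exact Submodule.subset_span rfl

theorem zeta_mem {p : ℕ} {w : List ℕ} (hw : w ∈ WW p) : zeta w ∈ V p := by
  obtain ⟨h1, h2⟩ := mem_WW.1 hw
  refine Submodule.mem_iSup_of_mem (⟨w.sum, Nat.lt_succ_iff.2 h2⟩ : Fin (p + 1)) ?_
  show zeta w ∈ Z w.sum 0
  rw [← T_zero h1]
  exact T_mem h1 0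

theorem li_W (W : Finset (List ℕ)) (hW : ∀ w ∈ W, MZ.AdW w) : LinearIndependent baseField
    (fun o : Option {p : List ℕ × ℂ // p.1 ∈ W ∧ p.2 ∈ {x : ℂ | IsAlgebraic ℚ x ∧ x ≠ 0}} =>
      (o.elim 1 (fun p => S p.1.1 p.1.2) : ℂ)) := by
  have h := li_S {x | IsAlgebraic ℚ x ∧ x ≠ 0} (fun x hx => hx)
  let g : {p : List ℕ × ℂ // p.1 ∈ W ∧ p.2 ∈ {x : ℂ | IsAlgebraic ℚ x ∧ x ≠ 0}} →
      {p : List ℕ × ℂ // Pos p.1 ∧ p.2 ∈ {x : ℂ | IsAlgebraic ℚ x ∧ x ≠ 0}} :=
    fun p => ⟨p.1, (hW _ p.2.1).wo, p.2.2⟩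
  have hg : Function.Injective g := by
    intro p q hpq
    exact Subtype.ext (congrArg (fun z : {p : List ℕ × ℂ // Pos p.1 ∧ p.2 ∈ {x : ℂ | IsAlgebraic ℚ x ∧ x ≠ 0}} => z.1) hpq)
  have h2 := h.comp (Option.map g) (Option.map_injective hg)
  have e : (fun o : Option {p : List ℕ × ℂ // p.1 ∈ W ∧ p.2 ∈ {x : ℂ | IsAlgebraic ℚ x ∧ x ≠ 0}} =>
      (o.elim 1 (fun p => S p.1.1 p.1.2) : ℂ)) =
      (fun o : Option {p : List ℕ × ℂ // Pos p.1 ∧ p.2 ∈ {x : ℂ | IsAlgebraic ℚ x ∧ x ≠ 0}} =>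
        (o.elim 1 (fun p => S p.1.1 p.1.2) : ℂ)) ∘ Option.map g := by
    funext o
    rcases o with _ | p
    · rfl
    · rfl
  rw [e]
  exact h2

theorem li_fin {W : Finset (List ℕ)} (hW : ∀ w ∈ W, MZ.AdW w) {t : Finset ℂ}
    (ht : ∀ x ∈ t, IsAlgebraic ℚ x ∧ x ≠ 0) :
    LinearIndependent baseField (fun o : Option (W × t) => (o.elim 1 (fun p => S p.1 p.2) : ℂ)) := by
  have h := li_W W hW
  let g : W × t → {p : List ℕ × ℂ // p.1 ∈ W ∧ p.2 ∈ {x : ℂ | IsAlgebraic ℚ x ∧ x ≠ 0}} :=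
    fun p => ⟨(p.1, p.2), p.1.2, ht _ p.2.2⟩
  have hg : Function.Injective g := by
    intro p q hpq
    have e0 := congrArg (fun z : {p : List ℕ × ℂ // p.1 ∈ W ∧ p.2 ∈ {x : ℂ | IsAlgebraic ℚ x ∧ x ≠ 0}} => z.1) hpq
    exact Prod.ext (Subtype.ext (congrArg Prod.fst e0)) (Subtype.ext (congrArg Prod.snd e0))
  have h2 := h.comp (Option.map g) (Option.map_injective hg)
  have e : (fun o : Option (W × t) => (o.elim 1 (fun p => S p.1 p.2) : ℂ)) =
      (fun o : Option {p : List ℕ × ℂ // p.1 ∈ W ∧ p.2 ∈ {x : ℂ | IsAlgebraic ℚ x ∧ x ≠ 0}} =>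
        (o.elim 1 (fun p => S p.1.1 p.1.2) : ℂ)) ∘ Option.map g := by
    funext o
    rcases o with _ | p
    · rfl
    · rfl
  rw [e]
  exact h2

/-- if the sum is not direct, `1` and the numbers `T_w(x)` are linearly dependent -/
theorem dep_of_not_direct {p : ℕ} {x : ℂ} (h : ¬ Direct p x) :
    ¬ LinearIndependent baseField (fun o : Option (WW p) => (o.elim 1 (fun w => zeta w - S w x) : ℂ)) := by
  classical
  intro hli
  apply h
  intro z hz hsum
  have h1 : ∀ j : Fin (p + 1), ∃ c : List ℕ → baseField, (j : ℕ) ≠ 0 → z j = ∑ w ∈ MZ.Wd j, c w • T w x := by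
    intro j
    by_cases hj : (j : ℕ) = 0
    · exact ⟨0, fun h => absurd hj h⟩
    · obtain ⟨c, hc⟩ := mem_Z hj (hz j)
      exact ⟨c, fun _ => hc⟩
  choose c hc using h1
  have h0 : ∃ a : baseField, z 0 = a • (1 : ℂ) := by
    have h2 := hz 0
    rw [Fin.val_zero, Z, if_pos rfl] at h2
    obtain ⟨a, ha⟩ := Submodule.mem_span_singleton.1 h2
    exact ⟨a, ha.symm⟩
  obtain ⟨a, ha⟩ := h0
  rw [Fintype.linearIndependent_iff] at hli
  let d : List ℕ → baseField := fun w => if hw : w.sum < p + 1 then c ⟨w.sum, hw⟩ w else 0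
  have hcd : ∀ (j : Fin (p + 1)), ∀ w ∈ MZ.Wd j, d w = c j w := by
    intro j w hw
    have h2 := (MZ.mem_Wd.1 hw).2
    have h3 : w.sum < p + 1 := by rw [h2]; exact j.2
    show (if hw : w.sum < p + 1 then c ⟨w.sum, hw⟩ w else 0) = c j w
    rw [dif_pos h3]
    have h4 : (⟨w.sum, h3⟩ : Fin (p + 1)) = j := Fin.ext h2
    rw [h4]
  have hsum2 : ∑ w : WW p, d w • (zeta w - S w x) = ∑ j : Fin p, z j.succ := by
    rw [Finset.sum_coe_sort (WW p) (fun w => d w • (zeta w - S w x)), WW, Finset.sum_biUnion]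
    · rw [Finset.sum_range_succ']
      have h2 : ∑ w ∈ MZ.Wd 0, d w • (zeta w - S w x) = 0 := by rw [MZ.Wd_zero, Finset.sum_empty]
      rw [h2, add_zero, Finset.sum_range (fun k => ∑ w ∈ MZ.Wd (k + 1), d w • (zeta w - S w x))]
      refine Finset.sum_congr rfl fun j _ => ?_
      have h3 := hc j.succ (by rw [Fin.val_succ]; omega)
      rw [h3, Fin.val_succ]
      refine Finset.sum_congr rfl fun w hw => ?_
      rw [hcd j.succ w (by rw [Fin.val_succ]; exact hw), T_sub (MZ.mem_Wd.1 hw).1]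
    · intro i _ j _ hij
      rw [Function.onFun, Finset.disjoint_left]
      intro w hw hw'
      exact hij ((MZ.mem_Wd.1 hw).2.symm.trans (MZ.mem_Wd.1 hw').2)
  have h2 := hli (fun o => o.elim a (fun w => d w)) (by
    rw [Fintype.sum_option]
    show a • (1 : ℂ) + ∑ w : WW p, d w • (zeta w - S w x) = 0
    rw [hsum2, ← ha, ← hsum, Fin.sum_univ_succ])
  intro j
  refine Fin.cases ?_ (fun j => ?_) j
  · rw [ha]
    have : a = 0 := h2 none
    rw [this, zero_smul]
  · have h3 := hc j.succ (by rw [Fin.val_succ]; omega)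
    rw [h3]
    refine Finset.sum_eq_zero fun w hw => ?_
    have hw2 := MZ.mem_Wd.1 hw
    have hw3 : w ∈ WW p := mem_WW.2 ⟨hw2.1, by rw [hw2.2]; exact Nat.lt_succ_iff.1 j.succ.2⟩
    have h4 : d w = 0 := h2 (some ⟨w, hw3⟩)
    rw [← hcd j.succ w hw, h4, zero_smul]

theorem span_le_V (p : ℕ) :
    Submodule.span baseField (Set.range fun o : Option (WW p) => (o.elim 1 (fun w => zeta w) : ℂ)) ≤ V p := by
  rw [Submodule.span_le]
  rintro z ⟨o, rfl⟩
  rcases o with _ | w
  · exact one_mem p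
  · exact zeta_mem w.2

theorem dim_sum (p : ℕ) : ∑ j : Fin (p + 1), Module.finrank baseField (Z j 0) =
    1 + ∑ k ∈ Finset.Icc 2 p, Module.finrank baseField (Z k 0) := by
  classical
  have h0 : Module.finrank baseField (Z 0 0) = 1 := by
    rw [Z, if_pos rfl]
    exact finrank_span_singleton one_ne_zero
  have h1 : Module.finrank baseField (Z 1 0) = 0 := by
    have : Z 1 0 = ⊥ := by
      rw [Z, if_neg one_ne_zero, Submodule.span_eq_bot]
      rintro z ⟨w, hw, hs, rfl⟩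
      have := AdW_sum (adm_iff'.1 hw)
      omega
    rw [this, finrank_bot]
  rw [← Finset.sum_range (fun k => Module.finrank baseField (Z k 0)), Finset.sum_range_succ', h0, add_comm]
  congr 1
  rcases p with _ | p
  · simp
  · rw [Finset.sum_range_succ', h1, add_zero]
    rw [Finset.range_eq_Ico, Finset.sum_Ico_add' (fun k => Module.finrank baseField (Z k 0)) 0 p 2]
    rw [zero_add]
    refine Finset.sum_congr ?_ fun _ _ => rfl
    ext k
    simp only [Finset.mem_Ico, Finset.mem_Icc]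
    omega

/-- **Damped directness** -/
theorem result (p : ℕ) :
    (∀ w : List ℕ, Admissible w → T w 0 = zeta w) ∧
    {x : ℂ | IsAlgebraic ℚ x ∧ ¬ Direct p x}.encard ≤ (∑ k ∈ Finset.Icc 2 p, Module.finrank baseField (Z k 0) : ℕ) ∧
    ∃ E : ℕ → Finset ℂ, (∀ k, (E k).card + 1 ≤ Module.finrank baseField (V p)) ∧
      ∀ x : ℕ → ℂ, (∀ k ∈ Finset.Icc 2 p, IsAlgebraic ℚ (x k) ∧ x k ≠ 0 ∧ x k ∉ E k) →
        (∀ k ∈ Finset.Icc 2 p, Module.finrank baseField (Z k (x k)) = 2 ^ (k - 2)) ∧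
        ∀ v ∈ V p, ∀ z : ℕ → ℂ, (∀ k ∈ Finset.Icc 2 p, z k ∈ Z k (x k)) →
          v + ∑ k ∈ Finset.Icc 2 p, z k = 0 → v = 0 ∧ ∀ k ∈ Finset.Icc 2 p, z k = 0 := by
  classical
  have hV := fin_V p
  refine ⟨fun w hw => T_zero (adm_iff hw), ?_, ?_⟩
  · refine Pool.Agent.N902.EW.encard_le_of_fin _ _ fun t ht => ?_
    have hAd : ∀ w ∈ WW p, MZ.AdW w := fun w hw => (mem_WW.1 hw).1
    have h1 := MZ.lin_count_dim (F := baseField) (WW p) S zeta (t.erase 0)
      (li_fin hAd fun x hx => ⟨(ht (Finset.mem_coe.2 (Finset.mem_erase.1 hx).2)).1, (Finset.mem_erase.1 hx).1⟩)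
      (fun x hx => dep_of_not_direct (ht (Finset.mem_coe.2 (Finset.mem_erase.1 hx).2)).2)
    have h2 := MZ.direct_count (F := baseField) (fun j : Fin (p + 1) => Z j 0) (fun j => fin_Z j 0)
      (Submodule.span baseField (Set.range fun o : Option (WW p) => (o.elim 1 (fun w => zeta w) : ℂ))) (span_le_V p)
    have h3 := dim_sum p
    by_cases h0 : (0 : ℂ) ∈ t
    · have h4 := (ht (Finset.mem_coe.2 h0)).2
      rw [Direct] at h4
      push Not at h4
      obtain ⟨z, hz1, hz2, hz3⟩ := h4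
      have h5 := h2.2 ⟨z, hz1, hz2, hz3⟩
      have h6 := Finset.card_erase_add_one h0
      omega
    · rw [Finset.erase_eq_of_notMem h0] at h1
      have h5 := h2.1
      omega
  · obtain ⟨E, hE, hx⟩ := MZ.tuple_count (F := baseField) (WW p) List.sum S {x | IsAlgebraic ℚ x ∧ x ≠ 0} (V p) hV
      (one_mem p) (li_W (WW p) fun w hw => (mem_WW.1 hw).1)
    refine ⟨E, hE, fun x hxE => ?_⟩
    have hx' : ∀ w ∈ WW p, x w.sum ∈ {x : ℂ | IsAlgebraic ℚ x ∧ x ≠ 0} ∧ x w.sum ∉ E w.sum := by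
      intro w hw
      obtain ⟨h1, h2⟩ := mem_WW.1 hw
      have h3 := hxE w.sum (Finset.mem_Icc.2 ⟨AdW_sum h1, h2⟩)
      exact ⟨⟨h3.1, h3.2.1⟩, h3.2.2⟩
    have key : ∀ c : List ℕ → baseField, ∑ w ∈ WW p, c w • T w (x w.sum) ∈ V p → ∀ w ∈ WW p, c w = 0 := by
      intro c hc
      refine hx x hx' c ?_
      have h1 : ∑ w ∈ WW p, c w • S w (x w.sum) = ∑ w ∈ WW p, c w • zeta w - ∑ w ∈ WW p, c w • T w (x w.sum) := by
        rw [← Finset.sum_sub_distrib]
        refine Finset.sum_congr rfl fun w hw => ?_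
        rw [← smul_sub, T_sub (mem_WW.1 hw).1]
        congr 1
        ring
      rw [h1]
      exact (V p).sub_mem ((V p).sum_mem fun w hw => (V p).smul_mem _ (zeta_mem hw)) hc
    have hsplit : ∀ a : List ℕ → ℂ, ∑ w ∈ WW p, a w = ∑ k ∈ Finset.Icc 2 p, ∑ w ∈ MZ.Wd k, a w := by
      intro a
      rw [WW, Finset.sum_biUnion]
      · symm
        refine Finset.sum_subset (fun k hk => Finset.mem_range.2 (Nat.lt_succ_iff.2 (Finset.mem_Icc.1 hk).2)) ?_
        intro k hk hk'
        have h1 := Nat.lt_succ_iff.1 (Finset.mem_range.1 hk)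
        have h2 : k = 0 ∨ k = 1 := by
          rw [Finset.mem_Icc] at hk'
          omega
        rcases h2 with rfl | rfl
        · rw [MZ.Wd_zero, Finset.sum_empty]
        · rw [MZ.Wd_one, Finset.sum_empty]
      · intro i _ j _ hij
        rw [Function.onFun, Finset.disjoint_left]
        intro w hw hw'
        exact hij ((MZ.mem_Wd.1 hw).2.symm.trans (MZ.mem_Wd.1 hw').2)
    have hWdW : ∀ k ∈ Finset.Icc 2 p, ∀ w ∈ MZ.Wd k, w ∈ WW p := by
      intro k hk w hw
      have h1 := MZ.mem_Wd.1 hw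
      exact mem_WW.2 ⟨h1.1, by rw [h1.2]; exact (Finset.mem_Icc.1 hk).2⟩
    refine ⟨fun k hk => ?_, fun v hv z hz hsum => ?_⟩
    · obtain ⟨n, rfl⟩ : ∃ n, k = n + 2 := ⟨k - 2, by have := (Finset.mem_Icc.1 hk).1; omega⟩
      have hli : LinearIndependent baseField (fun w : MZ.Wd (n + 2) => T w (x (n + 2))) := by
        rw [Fintype.linearIndependent_iff]
        intro g hg w
        let c : List ℕ → baseField := fun v => if hv : v ∈ MZ.Wd (n + 2) then g ⟨v, hv⟩ else 0
        have h1 : ∑ v ∈ WW p, c v • T v (x v.sum) = 0 := by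
          rw [hsplit, Finset.sum_eq_single (n + 2)]
          · rw [← Finset.sum_coe_sort, ← hg]
            refine Finset.sum_congr rfl fun v _ => ?_
            have h2 := (MZ.mem_Wd.1 v.2).2
            show (if hv : (v : List ℕ) ∈ MZ.Wd (n + 2) then g ⟨v, hv⟩ else 0) • T v (x (v : List ℕ).sum) = _
            rw [dif_pos v.2, h2]
          · intro k _ hkn
            refine Finset.sum_eq_zero fun v hv => ?_
            have h2 := (MZ.mem_Wd.1 hv).2
            have h3 : v ∉ MZ.Wd (n + 2) := fun h => hkn (h2.symm.trans (MZ.mem_Wd.1 h).2)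
            show (if hv : v ∈ MZ.Wd (n + 2) then g ⟨v, hv⟩ else 0) • T v (x v.sum) = 0
            rw [dif_neg h3, zero_smul]
          · intro h
            exact absurd hk h
        have h2 := key c (by rw [h1]; exact (V p).zero_mem) w (hWdW _ hk w w.2)
        have h3 : (if hv : (w : List ℕ) ∈ MZ.Wd (n + 2) then g ⟨w, hv⟩ else 0) = 0 := h2
        rwa [dif_pos w.2] at h3
      have h1 := finrank_span_eq_card hli
      rw [Fintype.card_coe, MZ.card_Wd] at h1
      have e : Z (n + 2) (x (n + 2)) =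
          Submodule.span baseField (Set.range fun w : MZ.Wd (n + 2) => T w (x (n + 2))) := by
        rw [Z, if_neg (by omega)]
        have e2 : {z | ∃ w : List ℕ, Admissible w ∧ w.sum = n + 2 ∧ z = T w (x (n + 2))} =
            Set.range fun w : MZ.Wd (n + 2) => T w (x (n + 2)) := by
          ext z
          constructor
          · rintro ⟨w, h1, h2, rfl⟩
            exact ⟨⟨w, MZ.mem_Wd.2 ⟨adm_iff'.1 h1, h2⟩⟩, rfl⟩
          · rintro ⟨w, rfl⟩
            have h3 := MZ.mem_Wd.1 w.2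
            exact ⟨w, adm_iff'.2 h3.1, h3.2, rfl⟩
        rw [e2]
      rw [e, h1, Nat.add_sub_cancel]
    · have h1 : ∀ k : ℕ, ∃ c : List ℕ → baseField, k ∈ Finset.Icc 2 p → z k = ∑ w ∈ MZ.Wd k, c w • T w (x k) := by
        intro k
        by_cases hk : k ∈ Finset.Icc 2 p
        · obtain ⟨c, hc⟩ := mem_Z (by have := (Finset.mem_Icc.1 hk).1; omega) (hz k hk)
          exact ⟨c, fun _ => hc⟩
        · exact ⟨0, fun h => absurd h hk⟩
      choose c hc using h1
      have h2 : ∑ w ∈ WW p, c w.sum w • T w (x w.sum) = ∑ k ∈ Finset.Icc 2 p, z k := by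
        rw [hsplit]
        refine Finset.sum_congr rfl fun k hk => ?_
        rw [hc k hk]
        refine Finset.sum_congr rfl fun w hw => ?_
        rw [(MZ.mem_Wd.1 hw).2]
      have h3 : ∑ w ∈ WW p, c w.sum w • T w (x w.sum) ∈ V p := by
        have h4 : ∑ k ∈ Finset.Icc 2 p, z k = -v := by linear_combination hsum
        rw [h2, h4]
        exact (V p).neg_mem hv
      have h4 := key _ h3
      have h5 : ∀ k ∈ Finset.Icc 2 p, z k = 0 := by
        intro k hk
        rw [hc k hk]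
        refine Finset.sum_eq_zero fun w hw => ?_
        have h6 := h4 w (hWdW k hk w hw)
        rw [(MZ.mem_Wd.1 hw).2] at h6
        rw [h6, zero_smul]
      refine ⟨?_, h5⟩
      rw [Finset.sum_eq_zero h5, add_zero] at hsum
      exact hsum

end Pool.Agent.Results.MP_4d52ff_nt.DampedDirectness
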